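import Pool.Agent.Helper51.EvenConn.B5

/-!
# MP_98cfca_co, Q2: no closed form for the Eulerian analogue of `W_j(x)`, every cycle type

`VG α x` is the sum of `x ^ |E(G)|` over all connected even graphs `G` on `Fin p` with
`α(G) = G`, so that `U_p(x) = (1 / p!) ∑_α VG α x`.
-/

namespace Pool.Agent.Results.MP_98cfca_co.EulerianAllTypes

open Helper51.EvenConn

/-- For every permutation `α` of `Fin p` that fixes at least one connected even graph, once `p`
exceeds a bound in terms of `B` and `∑ k ∈ K, k`, the series `VG α` is not a combination of `B`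
products of factors `(1 + x ^ k) ^ a` and `(1 - x ^ k) ^ b`, `k ∈ K`. -/
theorem result (B p : ℕ) (hp2 : 2 ≤ p) (α : Equiv.Perm (Fin p))
    (hα : ∃ G : SimpleGraph (Fin p), EvenG G ∧ G.Connected ∧ G.map α = G)
    (K : Finset ℕ) (hK : ∀ k ∈ K, 1 ≤ k)
    (hp : (8 * (2 * ∑ k ∈ K, k + 1)) ^ 4 ^ B < p)
    (c : Fin B → ℝ) (a b : Fin B → ℕ → ℤ) :
    ¬ ∀ x ∈ Set.Ioo (0 : ℝ) 1, VG α x =
      ∑ t, c t * ∏ k ∈ K, (1 + x ^ k) ^ a t k * (1 - x ^ k) ^ b t k := by
  obtain ⟨G, hG⟩ := hα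
  exact part_all B p hp2 α ⟨G, (mem_cset α G).2 hG⟩ K hK hp c a b

end Pool.Agent.Results.MP_98cfca_co.EulerianAllTypes
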