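import Pool.Agent.Helper51.EvenConn.B5

/-!
# MP_98cfca_co, Q2: no closed form for the Eulerian analogue of `W_j(x)`, one cycle of odd length

`VG α x` is the sum of `x ^ |E(G)|` over all connected even graphs `G` on `Fin p` with
`α(G) = G`, so that `U_p(x) = (1 / p!) ∑_α VG α x`.  Here `α = finRotate n` is one `n`-cycle.
-/

namespace Pool.Agent.Results.MP_98cfca_co.EulerianCycle

open Helper51.EvenConn

/-- Fix the number `B` of terms and a bound `κ` for the number of exponents `k`.  Let `n` be odd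
with `2 ^ ω(n) > B` and `n / rad n > 2 (16 (κ + 1) 2 ^ (κ + 1)) ^ (4 ^ B)` (such `n` exist).  Then
the series of the connected even graphs fixed by an `n`-cycle is not a combination of `B` terms
`x ^ m * ∏ k ∈ K, (1 + x ^ k) ^ a k * (1 - x ^ k) ^ b k` with `|K| ≤ κ`. -/
theorem result (B κ : ℕ) :
    (∃ n : ℕ, Odd n ∧ B < 2 ^ n.primeFactors.card ∧
      2 * (16 * ((κ + 1) * 2 ^ (κ + 1))) ^ 4 ^ B < n / ∏ q ∈ n.primeFactors, q) ∧
    ∀ n : ℕ, Odd n → B < 2 ^ n.primeFactors.card →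
      2 * (16 * ((κ + 1) * 2 ^ (κ + 1))) ^ 4 ^ B < n / ∏ q ∈ n.primeFactors, q →
      ∀ K : Finset ℕ, K.card ≤ κ → (∀ k ∈ K, 1 ≤ k) →
      ∀ (c : Fin B → ℝ) (m : Fin B → ℤ) (a b : Fin B → ℕ → ℤ),
      ¬ ∀ x ∈ Set.Ioo (0 : ℝ) 1, VG (finRotate n) x =
        ∑ t, c t * x ^ m t * ∏ k ∈ K, (1 + x ^ k) ^ a t k * (1 - x ^ k) ^ b t k := by
  refine ⟨exists_n B _, ?_⟩
  intro n hn hB hg K hκ hK c m a b
  refine part_cycle B n hn hB K hK (lt_of_le_of_lt ?_ hg) c m a b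
  have h1 : (K.card + 1) * 2 ^ (K.card + 1) ≤ (κ + 1) * 2 ^ (κ + 1) :=
    Nat.mul_le_mul (by omega) (Nat.pow_le_pow_right (by norm_num) (by omega))
  exact Nat.mul_le_mul_left 2 (Nat.pow_le_pow_left (Nat.mul_le_mul_left 16 h1) _)

end Pool.Agent.Results.MP_98cfca_co.EulerianCycle
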